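import Pool.Agent.Helper79.UN.NGoals
import Pool.Agent.Helper79.UN.Lib

/-! # MP_57a173_lc: packet CMP -/

noncomputable section

namespace UN.PkCMP

open Pool.Agent.Helper97.Ku NU UL UN

theorem cmp_a {L : Type} [CompleteBooleanAlgebra L] (K : BSet L) (φ : BSet L → L)
    (h : BSet.Ext φ) (x : BSet L) : x.mem (cmp K φ) = x.mem K ⊓ φ x := by
  cases K with
  | mk ι f w =>
    rw [cmp, BSet.mem_mk, BSet.mem_mk, iSup_inf_eq]
    refine iSup_congr fun i => ?_
    apply le_antisymm
    · refine le_inf (le_inf (inf_le_left.trans inf_le_left) inf_le_right) ?_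
      refine le_trans ?_ (h (f i) x)
      rw [BSet.eq_comm' (f i) x]
      exact le_inf inf_le_right (inf_le_left.trans inf_le_right)
    · refine le_inf (le_inf (inf_le_left.trans inf_le_left) ?_) (inf_le_left.trans inf_le_right)
      refine le_trans ?_ (h x (f i))
      exact le_inf (inf_le_left.trans inf_le_right) inf_le_right

theorem cmp_pf : U_CMP := by
  intro L _ K
  refine ⟨fun φ h x => cmp_a K φ h x, fun ψ h Z => ?_⟩
  cases K with
  | mk ι f w =>
    rw [pw, BSet.mem_mk]
    have hsub : ∀ y : ι → L, subV (BSet.mk ι f (fun i => w i ⊓ y i)) (BSet.mk ι f w) = ⊤ := by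
      intro y
      rw [eq_top_iff, subV]
      refine le_iInf fun x => ?_
      rw [le_himp_iff, top_inf_eq, BSet.mem_mk, BSet.mem_mk]
      exact iSup_mono fun i => inf_le_inf_right _ inf_le_left
    apply le_antisymm
    · refine iSup_le fun y => le_inf ?_ ?_
      · refine le_trans ?_ (((UN.Lib.ex1 L).1 (BSet.mk ι f w)).1
          (BSet.mk ι f (fun i => w i ⊓ y i)) Z)
        show _ ≤ BSet.eq _ Z ⊓ subV _ _
        rw [hsub y, inf_top_eq, BSet.eq_comm' _ Z]
        exact inf_le_right
      · refine le_trans ?_ (h (BSet.mk ι f (fun i => w i ⊓ y i)) Z)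
        rw [BSet.eq_comm' _ Z]
        exact le_inf inf_le_right inf_le_left
    · set Y : BSet L := BSet.mk ι f (fun i => w i ⊓ (f i).mem Z) with hY
      have key : subV Z (BSet.mk ι f w) ≤ Z.eq Y := by
        rw [BSet.eq_iff_ext]
        refine le_iInf fun x => le_inf ?_ ?_
        · rw [le_himp_iff]
          have h1 : subV Z (BSet.mk ι f w) ⊓ x.mem Z ≤ x.mem (BSet.mk ι f w) := by
            refine le_trans (inf_le_inf_right _ (iInf_le _ x)) ?_
            exact himp_inf_le
          refine le_trans (le_inf h1 inf_le_right) ?_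
          rw [BSet.mem_mk, hY, BSet.mem_mk, iSup_inf_eq]
          refine iSup_mono fun i => ?_
          refine le_inf (le_inf (inf_le_left.trans inf_le_left) ?_) (inf_le_left.trans inf_le_right)
          refine le_trans ?_ (BSet.mem_congr_left x (f i) Z)
          exact le_inf (inf_le_left.trans inf_le_right) inf_le_right
        · rw [le_himp_iff]
          refine inf_le_right.trans ?_
          rw [hY, BSet.mem_mk]
          refine iSup_le fun i => ?_
          refine le_trans ?_ (BSet.mem_congr_left (f i) x Z)
          rw [BSet.eq_comm' (f i) x]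
          exact le_inf inf_le_right (inf_le_left.trans inf_le_right)
      refine le_trans ?_ (le_iSup _ (fun i => (f i).mem Z))
      refine le_inf ?_ (inf_le_left.trans key)
      refine le_trans ?_ (h Z Y)
      exact inf_le_inf_right _ key

end UN.PkCMP
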