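import Pool.Agent.Helper79.UN.NGoals
import Pool.Agent.Helper79.UN.Lib

/-! # MP_57a173_lc: packet EX1 -/

noncomputable section

namespace UN.PkEX1

open Pool.Agent.Helper97.Ku NU UL UN

theorem iff' {L : Type} [CompleteBooleanAlgebra L] {φ ψ : BSet L → L} (h : BSet.Ext φ)
    (k : BSet.Ext ψ) : BSet.Ext (fun x => iffV (φ x) (ψ x)) := by
  unfold iffV
  exact (h.himp k).inf (k.himp h)

theorem ex1_pf : U_EX1 := by
  intro L _ o K A
  obtain ⟨hs, ha, -, -, -⟩ := UN.Lib.ex1 L
  have hsec : ∀ R Y : BSet L, BSet.Ext (fun u => isSecV K R u Y) ∧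
      BSet.Ext (fun u => isSecV K R Y u) := by
    intro R Y
    unfold isSecV
    exact ⟨BSet.Ext.iInf fun x => iff' (BSet.Ext.const _)
        ((BSet.Ext.const _).inf (ha R x).2.1),
      BSet.Ext.iInf fun x => iff' (BSet.Ext.mem_right x) (BSet.Ext.const _)⟩
  have hcpl : ∀ Y : BSet L, BSet.Ext (fun Z => isCplV K Y Z) ∧ BSet.Ext (fun Z => isCplV K Z Y) := by
    intro Y
    unfold isCplV
    exact ⟨BSet.Ext.iInf fun x => iff' (BSet.Ext.mem_right x) (BSet.Ext.const _),
      BSet.Ext.iInf fun x => iff' (BSet.Ext.const _)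
        ((BSet.Ext.const _).inf (BSet.Ext.mem_right x).compl)⟩
  have hun : ∀ R : BSet L, BSet.Ext (fun Z => isUnV o K R Z) := by
    intro R
    unfold isUnV
    exact BSet.Ext.iInf fun x => iff' (BSet.Ext.mem_right x) (BSet.Ext.const _)
  refine ⟨hsec, hcpl, hun, ?_, ?_, ?_, ?_⟩
  · unfold isSigV
    refine (BSet.Ext.iInf fun Y => (BSet.Ext.mem_right Y).himp (BSet.Ext.const _)).inf
      ((BSet.Ext.iSup fun Y => BSet.Ext.mem_right Y).inf
      ((BSet.Ext.iInf fun Y => (BSet.Ext.mem_right Y).himp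
        (BSet.Ext.iSup fun Z => (BSet.Ext.mem_right Z).inf (BSet.Ext.const _))).inf
      (BSet.Ext.iInf fun R => ?_)))
    exact (BSet.Ext.iInf fun n => (BSet.Ext.const _).himp
      (BSet.Ext.iSup fun Y => (BSet.Ext.mem_right Y).inf (BSet.Ext.const _))).himp
      (BSet.Ext.iSup fun Z => (BSet.Ext.mem_right Z).inf (BSet.Ext.const _))
  · unfold isBorV
    exact (hs K).1.inf (BSet.Ext.iInf fun S => (BSet.Ext.const _).himp
      ((BSet.Ext.const _).himp (BSet.Ext.mem_left S)))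
  · unfold sig0V
    exact (hs K).1.inf (BSet.Ext.iSup fun n => (BSet.Ext.const _).inf
      (BSet.Ext.iInf fun x => BSet.Ext.iInf fun x' => (BSet.Ext.const _).himp
        ((BSet.Ext.const _).himp ((BSet.Ext.const _).himp
          (iff' (BSet.Ext.mem_right x) (BSet.Ext.mem_right x'))))))
  · unfold sig1V
    exact BSet.Ext.iSup fun R => (hun R).inf (BSet.Ext.const _)

end UN.PkEX1
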