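import Pool.Agent.Helper79.UN.NGoals
import Pool.Agent.Helper79.UN.Lib

/-! # MP_57a173_lc: packet SG1 -/

noncomputable section

namespace UN.PkSG1

open Pool.Agent.Helper97.Ku NU UL UN

theorem iffV_self {L : Type} [CompleteBooleanAlgebra L] (a : L) : iffV a a = ⊤ := by
  unfold iffV
  rw [himp_self, inf_top_eq]

/-- quantification over the name of `ω` -/
theorem all_om {L : Type} [CompleteBooleanAlgebra L] (φ : BSet L → L) (h : BSet.Ext φ) (b : L)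
    (hn : ∀ n : ℕ, b ≤ φ (nn n)) : b ≤ ⨅ n : BSet L, (n.mem omN ⇨ φ n) := by
  refine le_iInf fun u => ?_
  rw [le_himp_iff, ((UN.Lib.nat L).2.1 u), inf_iSup_eq]
  refine iSup_le fun n => ?_
  refine le_trans ?_ (h (nn n) u)
  rw [BSet.eq_comm' (nn n) u]
  exact le_inf inf_le_right (inf_le_left.trans (hn n))

theorem cpl_top {L : Type} [CompleteBooleanAlgebra L] (cmp_ : U_CMP) (K : BSet L)
    (φ ψ : BSet L → L) (h : BSet.Ext φ) (k : BSet.Ext ψ) (hφψ : ∀ x, ψ x = (φ x)ᶜ) :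
    isCplV K (cmp K φ) (cmp K ψ) = ⊤ := by
  rw [eq_top_iff, isCplV]
  refine le_iInf fun x => ?_
  rw [(cmp_ L K).1 φ h x, (cmp_ L K).1 ψ k x, hφψ x]
  have : x.mem K ⊓ (x.mem K ⊓ φ x)ᶜ = x.mem K ⊓ (φ x)ᶜ := by
    rw [compl_inf, inf_sup_left, inf_compl_eq_bot, bot_sup_eq]
  rw [this, iffV_self]

theorem sg1_pf (cmp_ : U_CMP) (sq_ : U_SQ) (ex1 : U_EX1) (ex2 : U_EX2) (sg0 : U_SG0) :
    U_SG1 := by
  intro L _ K A q
  obtain ⟨s, hs⟩ := exists_surjective_nat (List Bool)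
  have hbas := fun m => (ex2 L ℕ (fun _ => ⊥) K A).2.1 (s m)
  have hth : ∀ m, BSet.Ext (fun x => q (s m) ⊓ basV (rl A x) (s m)) := fun m =>
    (BSet.Ext.const _).inf (hbas m)
  obtain ⟨-, -, hun, hsec⟩ := sq_ L K (fun m x => q (s m) ⊓ basV (rl A x) (s m)) hth
  have hop : (fun x => ⨆ m, (q (s m) ⊓ basV (rl A x) (s m))) = fun x => opV q (rl A x) := by
    funext x
    exact hs.iSup_comp (fun σ => q σ ⊓ basV (rl A x) σ)
  rw [hop] at hun
  rw [eq_top_iff, sig1V]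
  refine le_trans ?_ (le_iSup _ (sq K (fun m x => q (s m) ⊓ basV (rl A x) (s m))))
  rw [hun, top_inf_eq]
  refine all_om _ ?_ ⊤ fun n => ?_
  · refine BSet.Ext.iSup fun X => BSet.Ext.iSup fun Z => ?_
    exact (((ex1 L omN K A).1 _ X).1).inf (BSet.Ext.const _)
  · refine le_trans ?_ (le_iSup _ (cmp K (fun x => q (s n) ⊓ basV (rl A x) (s n))))
    refine le_trans ?_ (le_iSup _ (cmp K (fun x => (q (s n) ⊓ basV (rl A x) (s n))ᶜ)))
    rw [hsec n, sg0 L K A (s n) (q (s n)), cpl_top cmp_ K _ _ (hth n) (hth n).compl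
      (fun x => rfl), inf_top_eq, inf_top_eq]

end UN.PkSG1
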