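import Pool.Agent.Helper14.UN.SG1

/-! # MP_57a173_lc: packet SG2 -/

noncomputable section

namespace UN.PkSG2

open Pool.Agent.Helper97.Ku NU UL UN

theorem sg2_pf (cmp_ : U_CMP) (sq_ : U_SQ) (ex1 : U_EX1) (ex2 : U_EX2) (sg1 : U_SG1) :
    U_SG2 := by
  intro L _ K A Y
  rw [psF, inf_iSup_eq]
  refine iSup_le fun q => ?_
  have hop : ∀ n, BSet.Ext (fun x => opV (q n) (rl A x)) := fun n =>
    (ex2 L ℕ (fun _ => ⊥) K A).2.2.1 (q n)
  have hth : ∀ n, BSet.Ext (fun x => (opV (q n) (rl A x))ᶜ) := fun n => (hop n).compl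
  have hfs : BSet.Ext (fun x => fsV q (rl A x)) := ((ex2 L ℕ (fun _ => ⊥) K A).2.2.2.1 q).1
  obtain ⟨-, -, hun, hsec⟩ := sq_ L K (fun n x => (opV (q n) (rl A x))ᶜ) hth
  have hun' : isUnV omN K (sq K fun n x => (opV (q n) (rl A x))ᶜ)
      (cmp K fun x => fsV q (rl A x)) = ⊤ := hun
  rw [sig2V]
  refine le_trans ?_ (le_iSup _ (sq K fun n x => (opV (q n) (rl A x))ᶜ))
  refine le_inf ?_ ?_
  · -- the union is `Y`
    have h1 : subV Y K ⊓ cF K A Y q ≤ (cmp K fun x => fsV q (rl A x)).eq Y := by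
      rw [BSet.eq_iff_ext]
      refine le_iInf fun x => ?_
      rw [(cmp_ L K).1 _ hfs x]
      have hs : subV Y K ≤ (x.mem Y ⇨ x.mem K) := iInf_le _ x
      have hc : cF K A Y q ≤ (x.mem K ⇨ iffV (x.mem Y) (fsV q (rl A x))) := iInf_le _ x
      refine le_inf ?_ ?_
      · rw [le_himp_iff]
        have h2 : cF K A Y q ⊓ x.mem K ≤ iffV (x.mem Y) (fsV q (rl A x)) := by
          rw [← le_himp_iff]
          exact hc
        have h3 : cF K A Y q ⊓ x.mem K ≤ (fsV q (rl A x) ⇨ x.mem Y) := h2.trans inf_le_right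
        rw [le_himp_iff] at h3
        refine le_trans ?_ h3
        rw [inf_assoc (cF K A Y q)]
        exact inf_le_inf_right _ inf_le_right
      · rw [le_himp_iff]
        have h2 : subV Y K ⊓ x.mem Y ≤ x.mem K := by
          rw [← le_himp_iff]
          exact hs
        have hk : subV Y K ⊓ cF K A Y q ⊓ x.mem Y ≤ x.mem K :=
          le_trans (inf_le_inf_right _ inf_le_left) h2
        refine le_inf hk ?_
        have h4 : cF K A Y q ⊓ x.mem K ≤ (x.mem Y ⇨ fsV q (rl A x)) := by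
          rw [← le_himp_iff]
          refine hc.trans ?_
          exact himp_le_himp_left inf_le_left
        rw [le_himp_iff] at h4
        refine le_trans ?_ h4
        exact le_inf (le_inf (inf_le_left.trans inf_le_right) hk) inf_le_right
    have h5 := (ex1 L omN K A).2.2.1 (sq K fun n x => (opV (q n) (rl A x))ᶜ)
      (cmp K fun x => fsV q (rl A x)) Y
    refine le_trans ?_ h5
    show _ ≤ BSet.eq _ Y ⊓ isUnV _ _ _ _
    rw [hun', inf_top_eq]
    exact h1
  · refine UN.PkSG1.all_om _ ?_ _ fun n => ?_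
    · refine BSet.Ext.iSup fun X => BSet.Ext.iSup fun Z => ?_
      exact (((ex1 L omN K A).1 _ X).1).inf (BSet.Ext.const _)
    · refine le_top.trans ?_
      refine le_trans ?_ (le_iSup _ (cmp K (fun x => (opV (q n) (rl A x))ᶜ)))
      refine le_trans ?_ (le_iSup _ (cmp K (fun x => opV (q n) (rl A x))))
      rw [hsec n, sg1 L K A (q n), UN.PkSG1.cpl_top cmp_ K _ _ (hth n) (hop n)
        (fun x => (compl_compl _).symm), sup_top_eq, inf_top_eq, inf_top_eq]

end UN.PkSG2
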