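import Pool.Agent.Helper79.UN.NGoals
import Pool.Agent.Helper79.UN.Lib

/-! # MP_57a173_lc: packet SY1 -/

noncomputable section

namespace UN.PkSY1

open Pool.Agent.Helper97.Ku NU UL UN

/-- sections; `r`, `r+1`, `r+2`, `r+3` are fresh -/
theorem sec (a b c d r : ℕ) (ha : a < r) (hb : b < r) (hc : c < r) (hd : d < r) :
    Dfn (fun _ E w => IsSec E (w a) (w b) (w c) (w d))
      (fun _ _ w => isSecV (w a) (w b) (w c) (w d)) :=
  Dfn.congr (Dfn.all r (Dfn.iff (Dfn.mem r d) (Dfn.and (Dfn.mem r a)
    (Dfn.ap b c r (r + 1) (r + 2) (r + 3) (by omega) (by omega) (by omega) (by omega) (by omega)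
      (by omega) (by omega) (by omega) (by omega) (by omega)))))
    (fun N E w => by
      simp [IsSec, Function.update_of_ne ha.ne, Function.update_of_ne hb.ne,
        Function.update_of_ne hc.ne, Function.update_of_ne hd.ne])
    (fun L _ w => by
      simp [isSecV, Function.update_of_ne ha.ne, Function.update_of_ne hb.ne,
        Function.update_of_ne hc.ne, Function.update_of_ne hd.ne])

/-- complements; `r` is fresh -/
theorem cpl (a b c r : ℕ) (ha : a < r) (hb : b < r) (hc : c < r) :
    Dfn (fun _ E w => IsCpl E (w a) (w b) (w c)) (fun _ _ w => isCplV (w a) (w b) (w c)) :=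
  Dfn.congr (Dfn.all r (Dfn.iff (Dfn.mem r c) (Dfn.and (Dfn.mem r a) (Dfn.neg (Dfn.mem r b)))))
    (fun N E w => by
      simp [IsCpl, Function.update_of_ne ha.ne, Function.update_of_ne hb.ne,
        Function.update_of_ne hc.ne])
    (fun L _ w => by
      simp [isCplV, Function.update_of_ne ha.ne, Function.update_of_ne hb.ne,
        Function.update_of_ne hc.ne])

/-- unions; `r`, ..., `r+4` are fresh -/
theorem un (a b c d r : ℕ) (ha : a < r) (hb : b < r) (hc : c < r) (hd : d < r) :
    Dfn (fun _ E w => IsUn E (w a) (w b) (w c) (w d))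
      (fun _ _ w => isUnV (w a) (w b) (w c) (w d)) :=
  Dfn.congr (Dfn.all r (Dfn.iff (Dfn.mem r d) (Dfn.and (Dfn.mem r b)
    (Dfn.ex (r + 1) (Dfn.and (Dfn.mem (r + 1) a)
      (Dfn.ap c (r + 1) r (r + 2) (r + 3) (r + 4) (by omega) (by omega) (by omega) (by omega)
      (by omega) (by omega) (by omega) (by omega) (by omega) (by omega)))))))
    (fun N E w => by
      simp [IsUn, Function.update_of_ne ha.ne, Function.update_of_ne hb.ne,
        Function.update_of_ne hc.ne, Function.update_of_ne hd.ne,
        Function.update_of_ne (show a ≠ r + 1 by omega),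
        Function.update_of_ne (show c ≠ r + 1 by omega)])
    (fun L _ w => by
      simp [isUnV, Function.update_of_ne ha.ne, Function.update_of_ne hb.ne,
        Function.update_of_ne hc.ne, Function.update_of_ne hd.ne,
        Function.update_of_ne (show a ≠ r + 1 by omega),
        Function.update_of_ne (show c ≠ r + 1 by omega)])

/-- sigma-algebras; `r`, `r+1`, ... are fresh -/
theorem sig (a b c r : ℕ) (ha : a < r) (hb : b < r) (hc : c < r) :
    Dfn (fun _ E w => IsSig E (w a) (w b) (w c)) (fun _ _ w => isSigV (w a) (w b) (w c)) :=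
  Dfn.congr
    (Dfn.and (Dfn.all r (Dfn.imp (Dfn.mem r c) (Dfn.sub r b (r + 1) (by omega) (by omega))))
    (Dfn.and (Dfn.ex r (Dfn.mem r c))
    (Dfn.and (Dfn.all r (Dfn.imp (Dfn.mem r c) (Dfn.ex (r + 1) (Dfn.and (Dfn.mem (r + 1) c)
      (cpl b r (r + 1) (r + 2) (by omega) (by omega) (by omega))))))
    (Dfn.all r (Dfn.imp
      (Dfn.all (r + 1) (Dfn.imp (Dfn.mem (r + 1) a) (Dfn.ex (r + 2) (Dfn.and (Dfn.mem (r + 2) c)
        (sec b r (r + 1) (r + 2) (r + 3) (by omega) (by omega) (by omega) (by omega))))))
      (Dfn.ex (r + 1) (Dfn.and (Dfn.mem (r + 1) c)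
        (un a b r (r + 1) (r + 2) (by omega) (by omega) (by omega) (by omega)))))))))
    (fun N E w => by
      simp [Function.update_of_ne ha.ne, Function.update_of_ne hb.ne,
        Function.update_of_ne hc.ne,
        Function.update_of_ne (show a ≠ r + 1 by omega),
        Function.update_of_ne (show b ≠ r + 1 by omega),
        Function.update_of_ne (show c ≠ r + 1 by omega),
        Function.update_of_ne (show b ≠ r + 2 by omega),
        Function.update_of_ne (show c ≠ r + 2 by omega)]
      exact ⟨fun h => ⟨h.1, h.2.1, h.2.2.1, h.2.2.2⟩, fun h => ⟨h.1, h.2, h.3, h.4⟩⟩)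
    (fun L _ w => by
      simp [isSigV, Function.update_of_ne ha.ne, Function.update_of_ne hb.ne,
        Function.update_of_ne hc.ne,
        Function.update_of_ne (show a ≠ r + 1 by omega),
        Function.update_of_ne (show b ≠ r + 1 by omega),
        Function.update_of_ne (show c ≠ r + 1 by omega),
        Function.update_of_ne (show b ≠ r + 2 by omega),
        Function.update_of_ne (show c ≠ r + 2 by omega)])

/-- Borel sets; `r`, `r+1`, ... are fresh -/
theorem bor (i j k l r : ℕ) (hi : i < r) (hj : j < r) (hk : k < r) (hl : l < r) :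
    Dfn (fun _ E w => IsBor E (w i) (w j) (w k) (w l))
      (fun _ _ w => isBorV (w i) (w j) (w k) (w l)) :=
  Dfn.congr
    (Dfn.and (Dfn.sub l j r (by omega) (by omega))
      (Dfn.all r (Dfn.imp (sig i j r (r + 1) (by omega) (by omega) (by omega))
        (Dfn.imp (Dfn.all (r + 1) (Dfn.imp (Dfn.mem (r + 1) i) (Dfn.ex (r + 2)
          (Dfn.and (Dfn.mem (r + 2) r)
            (sec j k (r + 1) (r + 2) (r + 3) (by omega) (by omega) (by omega) (by omega))))))
          (Dfn.mem l r)))))
    (fun N E w => by
      simp [IsBor, Function.update_of_ne hi.ne, Function.update_of_ne hj.ne,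
        Function.update_of_ne hk.ne, Function.update_of_ne hl.ne,
        Function.update_of_ne (show i ≠ r + 1 by omega),
        Function.update_of_ne (show j ≠ r + 1 by omega),
        Function.update_of_ne (show k ≠ r + 1 by omega),
        Function.update_of_ne (show j ≠ r + 2 by omega),
        Function.update_of_ne (show k ≠ r + 2 by omega)])
    (fun L _ w => by
      simp [isBorV, Function.update_of_ne hi.ne, Function.update_of_ne hj.ne,
        Function.update_of_ne hk.ne, Function.update_of_ne hl.ne,
        Function.update_of_ne (show i ≠ r + 1 by omega),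
        Function.update_of_ne (show j ≠ r + 1 by omega),
        Function.update_of_ne (show k ≠ r + 1 by omega),
        Function.update_of_ne (show j ≠ r + 2 by omega),
        Function.update_of_ne (show k ≠ r + 2 by omega)])

theorem sy1_pf : U_SY1 := fun i j k l =>
  bor i j k l (i + j + k + l + 1) (by omega) (by omega) (by omega) (by omega)

end UN.PkSY1
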