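import Pool.Agent.Helper14.UN.UNA

/-!
# Project UN (MP_a41896_nt), packet UN: the theorem
-/

namespace Pool.Agent.Helper14.UN

open WeierstrassCurve Height Height.AdmissibleAbsValues MvPolynomial
open Pool.Agent.Helper29.BL Pool.Agent.Helper5.RO Pool.Agent.Helper5.UN

section

variable {K : Type} [Field K] [NumberField K] [DecidableEq K] {B : Type} [Fintype B]
  (W : B → Affine K) [∀ t, (W t).IsElliptic] (n : B → ℕ) {ι : Type} [Fintype ι] (D : ℕ)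
  (f : ι → MvPolynomial (IX n) K)

/-- the hypersurface and the constant for given `(m, E)` -/
theorem good (hEST : G_EST) (hZEL : G_ZEL) (hdeg : ∀ j i, degreeOf i (f j) ≤ D)
    (m : ∀ t, Fin (n t) → Fin (n t) → ℤ) (E : IX n → ℕ) :
    ∃ (Z : MvPolynomial (IX n) K) (c : ℝ), Z ≠ 0 ∧ 0 ≤ c ∧
      ((∀ t, LinearIndependent ℤ (m t)) →
        (∃ F : MvPolynomial (IX n) K, F ≠ 0 ∧ (∀ i, degreeOf i F ≤ E i) ∧
          ∀ a, Ft W n a E m F ∈ IA W n a D f) →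
        ∀ z : ∀ t, Fin (n t) → (W t).Point, (∀ t i, z t i ≠ 0) →
          eval (fun i => xc (z i.1 i.2)) Z ≠ 0 →
          cH D f (fun i => xc (z i.1 i.2)) ≤
            ∑ i : IX n, E i * hx (vz (m i.1 i.2) (z i.1)) + c) := by
  by_cases h : (∀ t, LinearIndependent ℤ (m t)) ∧
        (∃ F : MvPolynomial (IX n) K, F ≠ 0 ∧ (∀ i, degreeOf i F ≤ E i) ∧
          ∀ a, Ft W n a E m F ∈ IA W n a D f)
  · obtain ⟨hm, F, hF, hFd, hFI⟩ := h
    obtain ⟨Z, hZ, hz⟩ := hZEL K B W n m hm E F hF hFd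
    obtain ⟨c, hc, he⟩ := hEST K B W n ι D f hdeg m E F hFd hFI
    exact ⟨Z, c, hZ, hc, fun _ _ z hz0 hev => he z hz0 (hz z hz0 hev)⟩
  · refine ⟨1, 0, one_ne_zero, le_rfl, fun h1 h2 => absurd ⟨h1, h2⟩ h⟩

/-- the case of an empty centre -/
theorem case_empty (hEST : G_EST) (hdeg : ∀ j i, degreeOf i (f j) ≤ D)
    (h1 : ∀ a, (1 : MvPolynomial (VX n) K) ∈ IA W n a D f) (δ : ℝ) (hδ : 0 < δ) :
    ∃ (Z : MvPolynomial (IX n) K) (c : ℝ), Z ≠ 0 ∧ 0 ≤ c ∧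
    ∀ z : ∀ t, Fin (n t) → (W t).Point, (∀ t i, z t i ≠ 0) →
    cH D f (fun i => xc (z i.1 i.2)) ≤ δ * ∑ t, ∑ i, hx (z t i) + c := by
  obtain ⟨c, hc, he⟩ := hEST K B W n ι D f hdeg (fun _ _ _ => 0) (fun _ => 0) 1
    (fun i => by
      have h2 : degreeOf i (1 : MvPolynomial (IX n) K) = 0 := by
        rw [← C_1, degreeOf_C]
      exact h2.le)
    (fun a => by
      have h2 : IA W n a D f = ⊤ := (Ideal.eq_top_iff_one _).mpr (h1 a)
      rw [h2]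
      exact Submodule.mem_top)
  refine ⟨1, c, one_ne_zero, hc, fun z hz => ?_⟩
  have h2 := he z hz (by
    unfold hv
    have e : (1 : MvPolynomial (IX n) K).support = {0} := by
      classical
      rw [← C_1, support_C, if_neg one_ne_zero]
    rw [e]
    simp)
  have h3 : (0 : ℝ) ≤ ∑ t, ∑ i, hx (z t i) :=
    Finset.sum_nonneg fun t _ => Finset.sum_nonneg fun i _ => hx_nn _
  have h4 : (∑ i : IX n, ((0 : ℕ) : ℝ) * hx (vz (fun _ => (0 : ℤ)) (z i.1))) = 0 := by simp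
  have h5 : cH D f (fun i => xc (z i.1 i.2)) ≤ 0 + c := h4 ▸ h2
  have h6 : 0 ≤ δ * ∑ t, ∑ i, hx (z t i) := mul_nonneg hδ.le h3
  linarith

end

/-- **UN** from FEX, EMP, EST, ZEL, HERM, GDET -/
theorem gUN (hFEX : G_FEX) (hEMP : G_EMP) (hEST : G_EST) (hZEL : G_ZEL) (hHERM : G_HERM)
    (hGDET : G_GDET) : G_UN := by
  intro K _ _ _ B _ W _ n s ι _ D f hdeg hcod δ hδ
  set S := ∑ t, s t with hS
  set N₀ := Fintype.card (IX n) with hN₀
  by_cases hcase : N₀ ≤ S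
  · obtain ⟨Z, c, hZ, hc, h⟩ := case_empty W n D f hEST hdeg
      (hEMP K B W n S ι D f hdeg hcod hcase) δ hδ
    exact ⟨Z, c, hZ, hc, fun z hz _ _ => h z hz⟩
  push Not at hcase
  obtain ⟨cF, hF⟩ := hFEX K B W n S ι D f hdeg hcod
  have hherm : ∀ t, ∃ c : ℝ, 1 ≤ c ∧ ∀ A : Matrix (Fin (n t)) (Fin (n t)) ℝ, A.PosDef →
      ∃ m : Fin (n t) → Fin (n t) → ℤ, LinearIndependent ℤ m ∧
        ∏ j, (∑ k, ∑ l, A k l * (m j k : ℝ) * (m j l : ℝ)) ≤ c * A.det := fun t => hHERM (n t)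
  choose cc hcc hherm' using hherm
  have hcan : ∀ t, ∃ (H : (W t).Point → ℝ) (c₀ : ℝ), CanH (W t) H c₀ := fun t => can K (W t)
  choose H c0 hH using hcan
  set cH' : ℝ := ∏ t, cc t with hcH'
  have hcH1 : 1 ≤ cH' := by
    calc (1 : ℝ) = ∏ t : B, (1 : ℝ) := by simp
      _ ≤ _ := Finset.prod_le_prod (fun _ _ => zero_le_one) fun t _ => hcc t
  obtain ⟨κ, τ, hκ, hτ, hτδ, har⟩ := arith cF N₀ S cH' δ hcase hcH1 hδ
  set θ : ℝ := (τ : ℝ) ^ (S + 1) with hθ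
  set R' : ℕ := κ * τ ^ S with hR'
  have hτ1 : (1 : ℝ) ≤ τ := by exact_mod_cast hτ
  have hκ1 : (1 : ℝ) ≤ κ := by exact_mod_cast hκ
  have hθ1 : 1 ≤ θ := one_le_pow₀ hτ1
  have hR'c : ((R' : ℕ) : ℝ) = κ * τ ^ S := by rw [hR']; push_cast; ring
  have hR'1 : 1 ≤ R' := Nat.mul_pos hκ (pow_pos hτ S)
  set P : ℝ := cH' * (1 + θ) ^ S with hP
  have hP0 : 0 < P := by positivity
  -- the finitely many `(m, E)`
  classical
  let Idx := (∀ t, Fin (n t) → Fin (n t) → Set.Icc (-(⌈P⌉₊ : ℤ)) (⌈P⌉₊ : ℤ)) ×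
    (IX n → Fin (R' + 1))
  have hQ : ∀ ξ : Idx, _ := fun ξ => good W n D f hEST hZEL hdeg
    (fun t j k => (ξ.1 t j k : ℤ)) (fun i => (ξ.2 i : ℕ))
  choose Zf cf hZf hcf hb using hQ
  have hC0 : 0 ≤ ∑ t, |c0 t| := Finset.sum_nonneg fun t _ => abs_nonneg _
  set c₀ : ℝ := ∑ t, |c0 t| with hc₀
  have hc0t : ∀ t, c0 t ≤ c₀ := fun t => (le_abs_self _).trans
    (Finset.single_le_sum (f := fun t => |c0 t|) (fun _ _ => abs_nonneg _) (Finset.mem_univ t))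
  have hcf0 : 0 ≤ ∑ ξ, cf ξ := Finset.sum_nonneg fun ξ _ => hcf ξ
  refine ⟨∏ ξ, Zf ξ, (δ / 2) * (1 + N₀ * c₀) + N₀ * (R' * c₀) + ∑ ξ, cf ξ,
    Finset.prod_ne_zero_iff.mpr fun ξ _ => hZf ξ, by positivity, ?_⟩
  intro z hz hrk hev
  -- the normalization
  set N : ℝ := 1 + ∑ t, ∑ i, H t (z t i) with hN
  have hHn : ∀ t (x : (W t).Point), 0 ≤ H t x := fun t x => (hH t).quad.nonneg x
  have hsum0 : ∀ t, 0 ≤ ∑ i, H t (z t i) := fun t => Finset.sum_nonneg fun i _ => hHn t _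
  have hN1 : 1 ≤ N := by
    have : 0 ≤ ∑ t, ∑ i, H t (z t i) := Finset.sum_nonneg fun t _ => hsum0 t
    linarith
  have hN0 : 0 < N := by linarith
  have hsumN : ∀ t, ∑ i, H t (z t i) ≤ N := by
    intro t
    have := Finset.single_le_sum (f := fun t => ∑ i, H t (z t i)) (fun t _ => hsum0 t)
      (Finset.mem_univ t)
    linarith
  obtain ⟨m, hm, hprod⟩ := reduce hGDET n s cc hcc hherm' (fun t => (W t).Point) H
    (fun t => (hH t).quad) z hrk N θ hN0 hsumN (by linarith)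
  set q : IX n → ℝ := fun i =>
    ∑ k, (m i.1 i.2 k : ℝ) ^ 2 + θ * H i.1 (vz (m i.1 i.2) (z i.1)) / N with hq
  have hm0 : ∀ t j, m t j ≠ 0 := fun t j => (hm t).ne_zero j
  have hHq : ∀ i : IX n, 0 ≤ θ * H i.1 (vz (m i.1 i.2) (z i.1)) / N := by
    intro i
    have := hHn i.1 (vz (m i.1 i.2) (z i.1))
    positivity
  have hsq : ∀ i : IX n, ∑ k, (m i.1 i.2 k : ℝ) ^ 2 ≤ q i := fun i => by
    have := hHq i
    simp only [hq]
    linarith
  have hq1 : ∀ i, 1 ≤ q i := fun i => (sq_ge (hm0 i.1 i.2)).trans (hsq i)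
  have hq0 : ∀ i, 0 < q i := fun i => by linarith [hq1 i]
  have hqP : ∀ i, q i ≤ P := fun i => (le_prod_one q hq1 i).trans hprod
  have hqP' : ∏ i, q i ≤ P := hprod
  set E : IX n → ℕ := fun i => ⌊(R' : ℝ) / q i⌋₊ with hE
  have hR0 : (0 : ℝ) < R' := by exact_mod_cast hR'1
  have hEle : ∀ i, (E i : ℝ) * q i ≤ R' := by
    intro i
    have h1 : (E i : ℝ) ≤ R' / q i := Nat.floor_le (by have := hq0 i; positivity)
    rwa [le_div_iff₀ (hq0 i)] at h1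
  have hER : ∀ i, E i ≤ R' := by
    intro i
    have h1 : (E i : ℝ) ≤ R' := by
      have h2 : (E i : ℝ) * 1 ≤ E i * q i := mul_le_mul_of_nonneg_left (hq1 i) (Nat.cast_nonneg _)
      linarith [hEle i]
    exact_mod_cast h1
  -- existence of `F`
  have hcond1 : (∑ i : IX n, E i * (8 * ∑ k, (m i.1 i.2 k).natAbs ^ 2)) ≤ 8 * N₀ * R' := by
    have h1 : ∀ i : IX n, E i * (8 * ∑ k, (m i.1 i.2 k).natAbs ^ 2) ≤ 8 * R' := by
      intro i
      have h2 : ((E i * ∑ k, (m i.1 i.2 k).natAbs ^ 2 : ℕ) : ℝ) ≤ R' := by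
        rw [Nat.cast_mul, natAbs_sq]
        exact (mul_le_mul_of_nonneg_left (hsq i) (Nat.cast_nonneg _)).trans (hEle i)
      have h3 : E i * ∑ k, (m i.1 i.2 k).natAbs ^ 2 ≤ R' := by exact_mod_cast h2
      nlinarith
    calc (∑ i : IX n, E i * (8 * ∑ k, (m i.1 i.2 k).natAbs ^ 2)) ≤ ∑ i : IX n, 8 * R' :=
          Finset.sum_le_sum fun i _ => h1 i
      _ = 8 * N₀ * R' := by
          rw [Finset.sum_const, Finset.card_univ, smul_eq_mul]
          ring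
  have hN₀pos : 0 < N₀ := by omega
  have hR1 : 1 ≤ 8 * N₀ * R' := by
    have : 0 < 8 * N₀ * R' := by positivity
    exact this
  have hcond2 : cF * (8 * N₀ * R') ^ (N₀ - (S + 1)) < ∏ i, (E i + 1) := by
    have h1 : (R' : ℝ) ^ N₀ ≤ (∏ i, ((E i : ℝ) + 1)) * P := by
      have h2 : ∀ i, (R' : ℝ) ≤ ((E i : ℝ) + 1) * q i := by
        intro i
        have h3 : (R' : ℝ) / q i < E i + 1 := Nat.lt_floor_add_one _
        rw [div_lt_iff₀ (hq0 i)] at h3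
        exact h3.le
      calc (R' : ℝ) ^ N₀ = ∏ i : IX n, (R' : ℝ) := by
            rw [Finset.prod_const, Finset.card_univ]
        _ ≤ ∏ i, (((E i : ℝ) + 1) * q i) :=
            Finset.prod_le_prod (fun _ _ => hR0.le) fun i _ => h2 i
        _ = (∏ i, ((E i : ℝ) + 1)) * ∏ i, q i := Finset.prod_mul_distrib
        _ ≤ (∏ i, ((E i : ℝ) + 1)) * P := by
            refine mul_le_mul_of_nonneg_left hqP' (Finset.prod_nonneg fun i _ => ?_)
            positivity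
    have h4 : ((cF : ℝ) * (8 * N₀ * R') ^ (N₀ - (S + 1))) * P < (∏ i, ((E i : ℝ) + 1)) * P := by
      refine lt_of_lt_of_le ?_ h1
      rw [hR'c]
      exact har
    have h5 := lt_of_mul_lt_mul_right h4 hP0.le
    have h6 : ((cF * (8 * N₀ * R') ^ (N₀ - (S + 1)) : ℕ) : ℝ) < ((∏ i, (E i + 1) : ℕ) : ℝ) := by
      push_cast
      exact h5
    exact_mod_cast h6
  obtain ⟨F, hF0, hFd, hFI⟩ := hF m E (8 * N₀ * R') hR1 hm0 hcond1 hcond2
  -- the index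
  let ξ : Idx := (fun t j k => ⟨m t j k, abs_le.mp (abs_le_of_sq ((hsq ⟨t, j⟩).trans
    (hqP ⟨t, j⟩)) k)⟩, fun i => ⟨E i, Nat.lt_succ_of_le (hER i)⟩)
  have hevξ : eval (fun i : IX n => xc (z i.1 i.2)) (Zf ξ) ≠ 0 := by
    rw [map_prod] at hev
    exact Finset.prod_ne_zero_iff.mp hev ξ (Finset.mem_univ ξ)
  have hmain : cH D f (fun i => xc (z i.1 i.2)) ≤
      ∑ i : IX n, E i * hx (vz (m i.1 i.2) (z i.1)) + cf ξ :=
    hb ξ hm ⟨F, hF0, hFd, hFI⟩ z hz hevξ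
  have hcfξ : cf ξ ≤ ∑ ξ, cf ξ :=
    Finset.single_le_sum (fun ξ _ => hcf ξ) (Finset.mem_univ ξ)
  -- the estimate of the sum
  have hterm : ∀ i : IX n, (E i : ℝ) * hx (vz (m i.1 i.2) (z i.1)) ≤
      κ * N / τ + R' * c₀ := by
    intro i
    set x := vz (m i.1 i.2) (z i.1) with hx'
    have h1 : hx x ≤ H i.1 x + c₀ := by
      have h2 := (hH i.1).near x
      rw [abs_le] at h2
      linarith [hc0t i.1, h2.1]
    have h3 : (E i : ℝ) * H i.1 x ≤ κ * N / τ := by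
      have h4 : θ * H i.1 x / N ≤ q i := by
        have h5 : 0 ≤ ∑ k, (m i.1 i.2 k : ℝ) ^ 2 := Finset.sum_nonneg fun k _ => sq_nonneg _
        simp only [hq]
        linarith
      have h6 : (E i : ℝ) * (θ * H i.1 x / N) ≤ R' :=
        (mul_le_mul_of_nonneg_left h4 (Nat.cast_nonneg _)).trans (hEle i)
      have h7 : (E i : ℝ) * H i.1 x = (E i : ℝ) * (θ * H i.1 x / N) * (N / θ) := by
        field_simp
      have h8 : (R' : ℝ) * (N / θ) = κ * N / τ := by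
        rw [hR'c, hθ, pow_succ]
        field_simp
      rw [h7, ← h8]
      exact mul_le_mul_of_nonneg_right h6 (by positivity)
    have h9 : (E i : ℝ) * c₀ ≤ R' * c₀ :=
      mul_le_mul_of_nonneg_right (by exact_mod_cast hER i) hC0
    calc (E i : ℝ) * hx x ≤ E i * (H i.1 x + c₀) := mul_le_mul_of_nonneg_left h1 (Nat.cast_nonneg _)
      _ = E i * H i.1 x + E i * c₀ := by ring
      _ ≤ _ := by linarith
  have hsumt : ∑ i : IX n, (E i : ℝ) * hx (vz (m i.1 i.2) (z i.1)) ≤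
      N₀ * (κ * N / τ) + N₀ * (R' * c₀) := by
    calc ∑ i : IX n, (E i : ℝ) * hx (vz (m i.1 i.2) (z i.1)) ≤
          ∑ i : IX n, (κ * N / τ + R' * c₀) := Finset.sum_le_sum fun i _ => hterm i
      _ = _ := by
          rw [Finset.sum_const, Finset.card_univ, nsmul_eq_mul]
          ring
  have h10 : (N₀ : ℝ) * (κ * N / τ) ≤ δ / 2 * N := by
    have h11 : (N₀ : ℝ) * (κ * N / τ) = (N₀ * κ) * N / τ := by ring
    rw [h11, div_le_iff₀ (by linarith)]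
    nlinarith
  have h12 : N ≤ 1 + ∑ t, ∑ i, hx (z t i) + N₀ * c₀ := by
    have h13 : ∑ t, ∑ i, H t (z t i) ≤ ∑ t, ∑ i : Fin (n t), (hx (z t i) + c₀) := by
      refine Finset.sum_le_sum fun t _ => Finset.sum_le_sum fun i _ => ?_
      have h2 := (hH t).near (z t i)
      rw [abs_le] at h2
      linarith [hc0t t, h2.2]
    have h14 : ∑ t, ∑ i : Fin (n t), (hx (z t i) + c₀) = ∑ t, ∑ i, hx (z t i) + N₀ * c₀ := by
      have h15 : (N₀ : ℝ) * c₀ = ∑ i : IX n, c₀ := by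
        rw [Finset.sum_const, Finset.card_univ, nsmul_eq_mul]
      rw [h15, Fintype.sum_sigma, ← Finset.sum_add_distrib]
      exact Finset.sum_congr rfl fun t _ => Finset.sum_add_distrib
    linarith
  have h16 : 0 ≤ ∑ t, ∑ i, hx (z t i) :=
    Finset.sum_nonneg fun t _ => Finset.sum_nonneg fun i _ => hx_nn _
  have h17 : δ / 2 * N ≤ δ / 2 * (1 + ∑ t, ∑ i, hx (z t i) + N₀ * c₀) :=
    mul_le_mul_of_nonneg_left h12 (by linarith)
  have h18 : 0 ≤ δ / 2 * ∑ t, ∑ i, hx (z t i) := by positivity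
  nlinarith

end Pool.Agent.Helper14.UN
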