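import Pool.Agent.Helper5.UN.Goals
import Pool.Agent.Helper29.BL.CAN
import Pool.Agent.Helper29.BL.ADD

/-!
# Project UN (MP_a41896_nt), packet UN: auxiliary results
-/

namespace Pool.Agent.Helper14.UN

open WeierstrassCurve Height Height.AdmissibleAbsValues MvPolynomial
open Pool.Agent.Helper29.BL Pool.Agent.Helper5.RO Pool.Agent.Helper5.UN

theorem can : CAN := can_of (par_of add dbl xeq)

theorem hx_nn {K : Type} [Field K] [AdmissibleAbsValues K] {W : Affine K} (P : W.Point) :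
    0 ≤ hx P := by
  unfold hx
  exact zero_le_logHeight₁ _

/-- the choice of the parameters -/
theorem arith (c N₀ s : ℕ) (cH δ : ℝ) (hN : s < N₀) (hcH : 1 ≤ cH) (hδ : 0 < δ) :
    ∃ κ τ : ℕ, 1 ≤ κ ∧ 1 ≤ τ ∧ 2 * (N₀ : ℝ) * κ ≤ δ * τ ∧
      (c : ℝ) * (8 * N₀ * (κ * τ ^ s) : ℝ) ^ (N₀ - (s + 1)) * (cH * (1 + (τ : ℝ) ^ (s + 1)) ^ s) <
        (κ * τ ^ s : ℝ) ^ N₀ := by
  obtain ⟨κ, hκ⟩ := exists_nat_ge ((c : ℝ) * (8 * N₀ : ℝ) ^ (N₀ - (s + 1)) * (cH * 2 ^ s) + 1)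
  obtain ⟨τ, hτ⟩ := exists_nat_ge (2 * (N₀ : ℝ) * κ / δ + 1)
  have hk1 : (1 : ℝ) ≤ κ := by
    refine le_trans ?_ hκ
    have : 0 ≤ (c : ℝ) * (8 * N₀ : ℝ) ^ (N₀ - (s + 1)) * (cH * 2 ^ s) := by positivity
    linarith
  have ht1 : (1 : ℝ) ≤ τ := by
    refine le_trans ?_ hτ
    have : 0 ≤ 2 * (N₀ : ℝ) * κ / δ := by positivity
    linarith
  refine ⟨κ, τ, by exact_mod_cast hk1, by exact_mod_cast ht1, ?_, ?_⟩
  · have h1 : 2 * (N₀ : ℝ) * κ / δ ≤ τ := by linarith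
    rw [div_le_iff₀ hδ] at h1
    linarith
  set d := N₀ - (s + 1) with hd
  have hNd : N₀ = d + (s + 1) := by omega
  set T : ℝ := (τ : ℝ) ^ s with hT
  have hT1 : 1 ≤ T := one_le_pow₀ ht1
  set R : ℝ := κ * T with hR
  have hR0 : 0 < R := by positivity
  have h2 : (1 + (τ : ℝ) ^ (s + 1)) ^ s ≤ 2 ^ s * T ^ (s + 1) := by
    have h3 : 1 ≤ (τ : ℝ) ^ (s + 1) := one_le_pow₀ ht1
    calc (1 + (τ : ℝ) ^ (s + 1)) ^ s ≤ (2 * (τ : ℝ) ^ (s + 1)) ^ s := by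
          apply pow_le_pow_left₀ (by positivity)
          linarith
      _ = 2 ^ s * T ^ (s + 1) := by
          rw [mul_pow, hT, ← pow_mul, ← pow_mul, mul_comm s (s + 1)]
  have h4 : (c : ℝ) * (8 * N₀ : ℝ) ^ d * (cH * 2 ^ s) < κ := by linarith
  have h5 : (κ : ℝ) * T ^ (s + 1) ≤ R ^ (s + 1) := by
    rw [hR, mul_pow]
    apply mul_le_mul_of_nonneg_right _ (by positivity)
    calc (κ : ℝ) = κ ^ 1 := (pow_one _).symm
      _ ≤ κ ^ (s + 1) := pow_le_pow_right₀ hk1 (by omega)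
  calc (c : ℝ) * (8 * N₀ * (κ * T)) ^ d * (cH * (1 + (τ : ℝ) ^ (s + 1)) ^ s)
      ≤ (c : ℝ) * (8 * N₀ * (κ * T)) ^ d * (cH * (2 ^ s * T ^ (s + 1))) := by
        apply mul_le_mul_of_nonneg_left _ (by positivity)
        exact mul_le_mul_of_nonneg_left h2 (by linarith)
    _ = ((c : ℝ) * (8 * N₀ : ℝ) ^ d * (cH * 2 ^ s)) * (T ^ (s + 1) * R ^ d) := by
        rw [← hR, mul_pow (8 * (N₀ : ℝ)) R d]
        ring
    _ < κ * (T ^ (s + 1) * R ^ d) := by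
        apply mul_lt_mul_of_pos_right h4
        positivity
    _ = (κ * T ^ (s + 1)) * R ^ d := by ring
    _ ≤ R ^ (s + 1) * R ^ d := mul_le_mul_of_nonneg_right h5 (by positivity)
    _ = R ^ N₀ := by rw [← pow_add, add_comm (s + 1) d, ← hNd]

/-- the reduced bases of all blocks -/
theorem reduce (hG : G_GDET) {B : Type} [Fintype B] (n s : B → ℕ) (cc : B → ℝ)
    (hc : ∀ t, 1 ≤ cc t) (hherm : ∀ t, ∀ A : Matrix (Fin (n t)) (Fin (n t)) ℝ, A.PosDef →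
      ∃ m : Fin (n t) → Fin (n t) → ℤ, LinearIndependent ℤ m ∧
        ∏ j, (∑ k, ∑ l, A k l * (m j k : ℝ) * (m j l : ℝ)) ≤ cc t * A.det)
    (G : B → Type) [∀ t, AddCommGroup (G t)] (H : ∀ t, G t → ℝ) (hH : ∀ t, IsQuad (H t))
    (z : ∀ t, Fin (n t) → G t) (hz : ∀ t, Set.finrank ℤ (Set.range (z t)) ≤ s t) (N θ : ℝ)
    (hN : 0 < N) (hsum : ∀ t, ∑ i, H t (z t i) ≤ N) (hθ : 0 ≤ θ) :
    ∃ m : ∀ t, Fin (n t) → Fin (n t) → ℤ, (∀ t, LinearIndependent ℤ (m t)) ∧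
      ∏ i : IX n, (∑ k, (m i.1 i.2 k : ℝ) ^ 2 + θ * H i.1 (vz (m i.1 i.2) (z i.1)) / N) ≤
        (∏ t, cc t) * (1 + θ) ^ (∑ t, s t) := by
  have h1 : ∀ t, ∃ m : Fin (n t) → Fin (n t) → ℤ, LinearIndependent ℤ m ∧
      ∏ j, (∑ k, (m j k : ℝ) ^ 2 + θ * H t (vz (m j) (z t)) / N) ≤ cc t * (1 + θ) ^ s t := by
    intro t
    obtain ⟨A, hA, hdet, hval⟩ := hG (G t) (H t) (hH t) (n t) (s t) (z t) (hz t) N θ hN (hsum t) hθ
    obtain ⟨m, hm, hp⟩ := hherm t A hA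
    refine ⟨m, hm, ?_⟩
    calc ∏ j, (∑ k, (m j k : ℝ) ^ 2 + θ * H t (vz (m j) (z t)) / N)
        = ∏ j, (∑ k, ∑ l, A k l * (m j k : ℝ) * (m j l : ℝ)) :=
          Finset.prod_congr rfl fun j _ => (hval (m j)).symm
      _ ≤ cc t * A.det := hp
      _ ≤ cc t * (1 + θ) ^ s t := mul_le_mul_of_nonneg_left hdet (by linarith [hc t])
  choose m hm hp using h1
  refine ⟨m, hm, ?_⟩
  rw [Fintype.prod_sigma, ← Finset.prod_pow_eq_pow_sum, ← Finset.prod_mul_distrib]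
  refine Finset.prod_le_prod (fun t _ => ?_) fun t _ => hp t
  refine Finset.prod_nonneg fun j _ => ?_
  have h2 : 0 ≤ H t (vz (m t j) (z t)) := (hH t).nonneg _
  have h3 : 0 ≤ ∑ k, (m t j k : ℝ) ^ 2 := Finset.sum_nonneg fun k _ => sq_nonneg _
  positivity

/-- a factor of a product of numbers `≥ 1` -/
theorem le_prod_one {σ : Type} [Fintype σ] (q : σ → ℝ) (hq : ∀ i, 1 ≤ q i) (i : σ) :
    q i ≤ ∏ j, q j := by
  classical
  rw [← Finset.mul_prod_erase Finset.univ q (Finset.mem_univ i)]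
  have h1 : (1 : ℝ) ≤ ∏ j ∈ Finset.univ.erase i, q j := by
    calc (1 : ℝ) = ∏ j ∈ Finset.univ.erase i, (1 : ℝ) := by simp
      _ ≤ _ := Finset.prod_le_prod (fun _ _ => zero_le_one) fun j _ => hq j
  nlinarith [hq i]

theorem sq_ge {n : ℕ} {m : Fin n → ℤ} (hm : m ≠ 0) : (1 : ℝ) ≤ ∑ k, (m k : ℝ) ^ 2 := by
  obtain ⟨k, hk⟩ := Function.ne_iff.mp hm
  have h1 : (1 : ℝ) ≤ (m k : ℝ) ^ 2 := by
    have hk' : m k ≠ 0 := hk
    have h2 : 0 < m k ^ 2 := by positivity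
    have h3 : 1 ≤ m k ^ 2 := h2
    exact_mod_cast h2
  exact h1.trans (Finset.single_le_sum (f := fun k => (m k : ℝ) ^ 2)
    (fun _ _ => sq_nonneg _) (Finset.mem_univ k))

theorem abs_le_of_sq {n : ℕ} {m : Fin n → ℤ} {P : ℝ} (h : ∑ k, (m k : ℝ) ^ 2 ≤ P) (k : Fin n) :
    |m k| ≤ (⌈P⌉₊ : ℤ) := by
  have h1 : (m k : ℝ) ^ 2 ≤ P := (Finset.single_le_sum (f := fun k => (m k : ℝ) ^ 2)
    (fun _ _ => sq_nonneg _) (Finset.mem_univ k)).trans h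
  have h2 : ((m k) ^ 2 : ℤ) ≤ (⌈P⌉₊ : ℤ) := by
    have h3 : ((m k ^ 2 : ℤ) : ℝ) ≤ ((⌈P⌉₊ : ℤ) : ℝ) := by
      push_cast
      exact h1.trans (Nat.le_ceil P)
    exact_mod_cast h3
  refine le_trans ?_ h2
  rw [← sq_abs]
  have h4 : 0 ≤ |m k| := abs_nonneg _
  rcases h4.eq_or_lt with h5 | h5
  · rw [← h5]
    simp
  · nlinarith

theorem natAbs_sq {n : ℕ} (m : Fin n → ℤ) :
    ((∑ k, (m k).natAbs ^ 2 : ℕ) : ℝ) = ∑ k, (m k : ℝ) ^ 2 := by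
  push_cast
  refine Finset.sum_congr rfl fun k _ => ?_
  rw [Nat.cast_natAbs, Int.cast_abs, sq_abs]

end Pool.Agent.Helper14.UN
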